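import Mathlib

set_option autoImplicit false

namespace Pool.Agent.Results.MP_201e5f_co.KernelPerfectFails

/-- A loopless multigraph with vertex set `V` and edge set `E`. The two ends of every edge are
listed in an arbitrary reference order; this order carries no further meaning. -/
structure MGraph (V E : Type) where
  fst : E → V
  snd : E → V
  loopless : ∀ e, fst e ≠ snd e

/-- A biorientation of `G`: for every edge `e` with ends `fst e = u`, `snd e = v` it has the arc
`(u,v)` (if `fwd e`), or the arc `(v,u)` (if `bwd e`), or both, and it has no other arcs. -/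
structure Biorientation {V E : Type} (G : MGraph V E) where
  fwd : E → Prop
  bwd : E → Prop
  covers : ∀ e, fwd e ∨ bwd e

namespace Biorientation

variable {V E : Type} {G : MGraph V E}

/-- There is an arc from `u` to `v`. -/
def Arc (D : Biorientation G) (u v : V) : Prop :=
  ∃ e, (D.fwd e ∧ G.fst e = u ∧ G.snd e = v) ∨ (D.bwd e ∧ G.snd e = u ∧ G.fst e = v)

/-- The out-degree, arcs counted with multiplicity. -/
noncomputable def outDeg (D : Biorientation G) (v : V) : ℕ :=
  Nat.card {e // D.fwd e ∧ G.fst e = v} + Nat.card {e // D.bwd e ∧ G.snd e = v}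

/-- `U` is a kernel of the subdigraph of `D` induced by `S`. -/
def IsKernel (D : Biorientation G) (S U : Set V) : Prop :=
  U ⊆ S ∧ (∀ u ∈ U, ∀ v ∈ U, ¬ D.Arc u v) ∧ ∀ v ∈ S, v ∉ U → ∃ u ∈ U, D.Arc v u

/-- Every induced subdigraph has a kernel. -/
def KernelPerfect (D : Biorientation G) : Prop :=
  ∀ S : Set V, ∃ U : Set V, D.IsKernel S U

end Biorientation

/-- A correspondence assignment `(L,C)` on `G`: finite lists of colours and, for every edge `e`
with ends `fst e = u`, `snd e = v`, a partial matching between `{u} × L u` and `{v} × L v`;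
`C e c d` says that `(u,c)` and `(v,d)` are matched. -/
structure CorrAssign {V E : Type} (G : MGraph V E) where
  L : V → Finset ℕ
  C : E → ℕ → ℕ → Prop
  mem : ∀ e c d, C e c d → c ∈ L (G.fst e) ∧ d ∈ L (G.snd e)
  right_unique : ∀ e c d d', C e c d → C e c d' → d = d'
  left_unique : ∀ e c c' d, C e c d → C e c' d → c = c'

namespace CorrAssign

variable {V E : Type} {G : MGraph V E}

/-- An edge is straight if all matched pairs have equal colours. -/
def Straight (A : CorrAssign G) (e : E) : Prop := ∀ c d, A.C e c d → c = d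

/-- An edge is twisted if it is not straight. -/
def Twisted (A : CorrAssign G) (e : E) : Prop := ¬ A.Straight e

/-- For every twisted edge the matching is a partial derangement. -/
def IsDerangement (A : CorrAssign G) : Prop :=
  ∀ e, A.Twisted e → ∀ c, ¬ A.C e c c

/-- `φ` is an `(L,C)`-colouring. -/
def IsColouring (A : CorrAssign G) (φ : V → ℕ) : Prop :=
  (∀ v, φ v ∈ A.L v) ∧ ∀ e, ¬ A.C e (φ (G.fst e)) (φ (G.snd e))

end CorrAssign

/-! ### The construction

Vertices: integers modulo `2m+1`; between `v` and `v+j` (`1 ≤ j ≤ m`) there are two parallel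
edges, a straight one, oriented from `v` to `v+j` only, and a twisted one, oriented both ways.
All lists are `{0,...,4m-1}`, and the twisted edges match `2c` with `2c+1`. -/

/-- Every non-zero residue modulo `2m+1` is `j` or `-j` for some `1 ≤ j ≤ m`. -/
theorem exists_step (m : ℕ) (x : ZMod (2 * m + 1)) (hx : x ≠ 0) :
    ∃ d : Fin m, x = ((d.val + 1 : ℕ) : ZMod (2 * m + 1)) ∨
      -x = ((d.val + 1 : ℕ) : ZMod (2 * m + 1)) := by
  have h0 : x.val ≠ 0 := by rwa [Ne, ZMod.val_eq_zero]
  have hlt : x.val < 2 * m + 1 := ZMod.val_lt x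
  by_cases h : x.val ≤ m
  · refine ⟨⟨x.val - 1, by omega⟩, Or.inl ?_⟩
    have : x.val - 1 + 1 = x.val := by omega
    simp only [this, ZMod.natCast_val, ZMod.cast_id', id_eq]
  · have hne : NeZero x := ⟨hx⟩
    have hv : (-x).val = 2 * m + 1 - x.val := ZMod.val_neg_of_ne_zero x
    refine ⟨⟨(-x).val - 1, by omega⟩, Or.inr ?_⟩
    have : (-x).val - 1 + 1 = (-x).val := by omega
    simp only [this, ZMod.natCast_val, ZMod.cast_id', id_eq]

/-- The multigraph: two parallel edges between any two residues modulo `2m+1`. -/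
def gr (m : ℕ) : MGraph (ZMod (2 * m + 1)) (ZMod (2 * m + 1) × Fin m × Bool) where
  fst e := e.1
  snd e := e.1 + ((e.2.1.val + 1 : ℕ) : ZMod (2 * m + 1))
  loopless := by
    rintro ⟨v, d, b⟩ h
    have h1 : ((d.val + 1 : ℕ) : ZMod (2 * m + 1)) = 0 := by
      simpa using h.symm
    rw [ZMod.natCast_eq_zero_iff] at h1
    have := Nat.le_of_dvd (by omega) h1
    have := d.isLt
    omega

/-- The biorientation: the twisted edges are oriented both ways. -/
def bi (m : ℕ) : Biorientation (gr m) where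
  fwd _ := True
  bwd e := e.2.2 = true
  covers _ := Or.inl trivial

/-- The assignment: edges `(v,d,false)` carry the identity, edges `(v,d,true)` match `2c` with
`2c+1`. -/
def asg (m : ℕ) : CorrAssign (gr m) where
  L _ := Finset.range (4 * m)
  C e c d := c < 4 * m ∧ d < 4 * m ∧ c / 2 = d / 2 ∧ ((e.2.2 = true ∧ c ≠ d) ∨
    (e.2.2 = false ∧ c = d))
  mem e c d h := by simp only [Finset.mem_range]; exact ⟨h.1, h.2.1⟩
  right_unique e c d d' h h' := by
    obtain ⟨_, _, h1, h2⟩ := h
    obtain ⟨_, _, h3, h4⟩ := h'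
    rcases h2 with ⟨hb, h2⟩ | ⟨hb, h2⟩ <;> rcases h4 with ⟨hb', h4⟩ | ⟨hb', h4⟩
    · omega
    · exact absurd (hb.symm.trans hb') (by simp)
    · exact absurd (hb'.symm.trans hb) (by simp)
    · exact h2.symm.trans h4
  left_unique e c c' d h h' := by
    obtain ⟨_, _, h1, h2⟩ := h
    obtain ⟨_, _, h3, h4⟩ := h'
    rcases h2 with ⟨hb, h2⟩ | ⟨hb, h2⟩ <;> rcases h4 with ⟨hb', h4⟩ | ⟨hb', h4⟩
    · omega
    · exact absurd (hb.symm.trans hb') (by simp)
    · exact absurd (hb'.symm.trans hb) (by simp)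
    · exact h2.trans h4.symm

theorem arc_of_ne (m : ℕ) (u v : ZMod (2 * m + 1)) (h : u ≠ v) : (bi m).Arc u v := by
  obtain ⟨d, hd | hd⟩ := exists_step m (v - u) (sub_ne_zero.2 h.symm)
  · exact ⟨(u, d, true), Or.inl ⟨trivial, rfl, by
      change u + ((d.val + 1 : ℕ) : ZMod (2 * m + 1)) = v
      rw [← hd]; ring⟩⟩
  · exact ⟨(v, d, true), Or.inr ⟨rfl, by
      change v + ((d.val + 1 : ℕ) : ZMod (2 * m + 1)) = u
      rw [← hd]; ring, rfl⟩⟩

theorem not_arc_self {V E : Type} {G : MGraph V E} (D : Biorientation G) (v : V) :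
    ¬ D.Arc v v := by
  rintro ⟨e, ⟨_, h1, h2⟩ | ⟨_, h1, h2⟩⟩
  · exact G.loopless e (h1.trans h2.symm)
  · exact G.loopless e (h2.trans h1.symm)

theorem bi_kernelPerfect (m : ℕ) : (bi m).KernelPerfect := by
  intro S
  rcases S.eq_empty_or_nonempty with rfl | ⟨s, hs⟩
  · exact ⟨∅, le_rfl, by simp, by simp⟩
  · refine ⟨{s}, by simpa using hs, ?_, ?_⟩
    · rintro u rfl v rfl
      exact not_arc_self _ _
    · intro v _ hv
      exact ⟨s, rfl, arc_of_ne m v s (fun h => hv h)⟩

theorem outDeg_le (m : ℕ) (v : ZMod (2 * m + 1)) : (bi m).outDeg v ≤ 3 * m := by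
  have h1 : Nat.card {e // (bi m).fwd e ∧ (gr m).fst e = v} ≤ Nat.card (Fin m × Bool) := by
    apply Nat.card_le_card_of_injective (fun e => e.1.2)
    rintro ⟨⟨a, x⟩, _, ha⟩ ⟨⟨b, y⟩, _, hb⟩ hxy
    change a = v at ha
    change b = v at hb
    change x = y at hxy
    subst ha hb hxy
    rfl
  have h2 : Nat.card {e // (bi m).bwd e ∧ (gr m).snd e = v} ≤ Nat.card (Fin m) := by
    apply Nat.card_le_card_of_injective (fun e => e.1.2.1)
    rintro ⟨⟨a, d, x⟩, hx, ha⟩ ⟨⟨b, d', y⟩, hy, hb⟩ hxy
    change x = true at hx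
    change y = true at hy
    change d = d' at hxy
    change a + ((d.val + 1 : ℕ) : ZMod (2 * m + 1)) = v at ha
    change b + ((d'.val + 1 : ℕ) : ZMod (2 * m + 1)) = v at hb
    subst hx hy hxy
    have : a = b := add_right_cancel (ha.trans hb.symm)
    subst this
    rfl
  have e1 : Nat.card (Fin m × Bool) = 2 * m := by
    simp [Nat.card_eq_fintype_card, Fintype.card_prod]; ring
  have e2 : Nat.card (Fin m) = m := by simp
  unfold Biorientation.outDeg
  omega

theorem not_colourable (m : ℕ) (φ : ZMod (2 * m + 1) → ℕ) : ¬ (asg m).IsColouring φ := by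
  rintro ⟨hL, hC⟩
  have hlt : ∀ v, φ v < 4 * m := fun v => Finset.mem_range.1 (hL v)
  obtain ⟨u, v, huv, h⟩ := Fintype.exists_ne_map_eq_of_card_lt
    (fun v : ZMod (2 * m + 1) => (⟨φ v / 2, by have := hlt v; omega⟩ : Fin (2 * m)))
    (by rw [ZMod.card, Fintype.card_fin]; omega)
  have hcl : φ u / 2 = φ v / 2 := by simpa using h
  -- an edge of each kind between the two vertices
  have key : ∀ a b : ZMod (2 * m + 1), φ a / 2 = φ b / 2 → ∀ d : Fin m,
      b - a = ((d.val + 1 : ℕ) : ZMod (2 * m + 1)) → False := by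
    intro a b hab d hd
    have hb : a + ((d.val + 1 : ℕ) : ZMod (2 * m + 1)) = b := by rw [← hd]; ring
    by_cases he : φ a = φ b
    · refine hC (a, d, false) ?_
      change φ a < 4 * m ∧ φ (a + ((d.val + 1 : ℕ) : ZMod (2 * m + 1))) < 4 * m ∧ _ ∧ _
      rw [hb]
      exact ⟨hlt a, hlt b, by rw [show (gr m).snd (a, d, false) = b from hb]; exact hab,
        Or.inr ⟨rfl, by rw [show (gr m).snd (a, d, false) = b from hb]; exact he⟩⟩
    · refine hC (a, d, true) ?_
      change φ a < 4 * m ∧ φ (a + ((d.val + 1 : ℕ) : ZMod (2 * m + 1))) < 4 * m ∧ _ ∧ _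
      rw [hb]
      exact ⟨hlt a, hlt b, by rw [show (gr m).snd (a, d, true) = b from hb]; exact hab,
        Or.inl ⟨rfl, by rw [show (gr m).snd (a, d, true) = b from hb]; exact he⟩⟩
  obtain ⟨d, hd | hd⟩ := exists_step m (v - u) (sub_ne_zero.2 huv.symm)
  · exact key u v hcl d hd
  · exact key v u hcl.symm d (by rw [← hd]; ring)

theorem straight_of_false (m : ℕ) (v : ZMod (2 * m + 1)) (d : Fin m) :
    (asg m).Straight (v, d, false) := by
  rintro c c' ⟨_, _, _, h | h⟩
  · exact absurd h.1 (by simp)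
  · exact h.2

theorem twisted_imp (m : ℕ) (e : ZMod (2 * m + 1) × Fin m × Bool) (he : (asg m).Twisted e) :
    e.2.2 = true := by
  obtain ⟨v, d, b⟩ := e
  cases b
  · exact absurd (straight_of_false m v d) he
  · rfl

/-- For every `k` there are a finite loopless multigraph with a kernel-perfect biorientation `D` and
a derangement assignment, all of whose twisted edges are oriented both ways in `D`, such that
`|L(v)| ≥ d⁺(v) + k` for every vertex `v`, but which has no colouring. The case `k = 1` answers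
Q1 in the negative. -/
theorem result : ∀ k : ℕ, ∃ (V E : Type) (_ : Finite V) (_ : Finite E) (G : MGraph V E)
    (D : Biorientation G) (A : CorrAssign G),
    D.KernelPerfect ∧ A.IsDerangement ∧ (∀ e, A.Twisted e → D.fwd e ∧ D.bwd e) ∧
    (∀ v, D.outDeg v + k ≤ (A.L v).card) ∧ ¬ ∃ φ : V → ℕ, A.IsColouring φ := by
  intro k
  refine ⟨ZMod (2 * k + 1), ZMod (2 * k + 1) × Fin k × Bool, inferInstance, inferInstance,
    gr k, bi k, asg k, bi_kernelPerfect k, ?_, ?_, ?_, ?_⟩
  · rintro e he c ⟨_, _, _, h | h⟩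
    · exact h.2 rfl
    · exact absurd (twisted_imp k e he) (by rw [h.1]; simp)
  · intro e he
    exact ⟨trivial, twisted_imp k e he⟩
  · intro v
    have := outDeg_le k v
    change _ ≤ (Finset.range (4 * k)).card
    rw [Finset.card_range]
    omega
  · rintro ⟨φ, hφ⟩
    exact not_colourable k φ hφ

end Pool.Agent.Results.MP_201e5f_co.KernelPerfectFails
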