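import Mathlib

set_option autoImplicit false

namespace Pool.Agent.Results.MP_201e5f_co.SimpleGraphFails

/-- A loopless multigraph with vertex set `V` and edge set `E`. The two ends of every edge are
listed in an arbitrary reference order; this order carries no further meaning. -/
structure MGraph (V E : Type) where
  fst : E → V
  snd : E → V
  loopless : ∀ e, fst e ≠ snd e

/-- `G` is a simple graph: distinct edges have distinct pairs of ends. -/
def MGraph.IsSimple {V E : Type} (G : MGraph V E) : Prop :=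
  ∀ e e', (G.fst e = G.fst e' ∧ G.snd e = G.snd e') ∨ (G.fst e = G.snd e' ∧ G.snd e = G.fst e') →
    e = e'

/-- A biorientation of `G`: for every edge `e` with ends `fst e = u`, `snd e = v` it has the arc
`(u,v)` (if `fwd e`), or the arc `(v,u)` (if `bwd e`), or both, and it has no other arcs. -/
structure Biorientation {V E : Type} (G : MGraph V E) where
  fwd : E → Prop
  bwd : E → Prop
  covers : ∀ e, fwd e ∨ bwd e

namespace Biorientation

variable {V E : Type} {G : MGraph V E}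

/-- There is an arc from `u` to `v`. -/
def Arc (D : Biorientation G) (u v : V) : Prop :=
  ∃ e, (D.fwd e ∧ G.fst e = u ∧ G.snd e = v) ∨ (D.bwd e ∧ G.snd e = u ∧ G.fst e = v)

/-- The out-degree, arcs counted with multiplicity. -/
noncomputable def outDeg (D : Biorientation G) (v : V) : ℕ :=
  Nat.card {e // D.fwd e ∧ G.fst e = v} + Nat.card {e // D.bwd e ∧ G.snd e = v}

/-- `U` is a kernel of the subdigraph of `D` induced by `S`. -/
def IsKernel (D : Biorientation G) (S U : Set V) : Prop :=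
  U ⊆ S ∧ (∀ u ∈ U, ∀ v ∈ U, ¬ D.Arc u v) ∧ ∀ v ∈ S, v ∉ U → ∃ u ∈ U, D.Arc v u

/-- Every induced subdigraph has a kernel. -/
def KernelPerfect (D : Biorientation G) : Prop :=
  ∀ S : Set V, ∃ U : Set V, D.IsKernel S U

end Biorientation

/-- A correspondence assignment `(L,C)` on `G`: finite lists of colours and, for every edge `e`
with ends `fst e = u`, `snd e = v`, a partial matching between `{u} × L u` and `{v} × L v`;
`C e c d` says that `(u,c)` and `(v,d)` are matched. -/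
structure CorrAssign {V E : Type} (G : MGraph V E) where
  L : V → Finset ℕ
  C : E → ℕ → ℕ → Prop
  mem : ∀ e c d, C e c d → c ∈ L (G.fst e) ∧ d ∈ L (G.snd e)
  right_unique : ∀ e c d d', C e c d → C e c d' → d = d'
  left_unique : ∀ e c c' d, C e c d → C e c' d → c = c'

namespace CorrAssign

variable {V E : Type} {G : MGraph V E}

/-- An edge is straight if all matched pairs have equal colours. -/
def Straight (A : CorrAssign G) (e : E) : Prop := ∀ c d, A.C e c d → c = d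

/-- An edge is twisted if it is not straight. -/
def Twisted (A : CorrAssign G) (e : E) : Prop := ¬ A.Straight e

/-- For every twisted edge the matching is a partial derangement. -/
def IsDerangement (A : CorrAssign G) : Prop :=
  ∀ e, A.Twisted e → ∀ c, ¬ A.C e c c

/-- `φ` is an `(L,C)`-colouring. -/
def IsColouring (A : CorrAssign G) (φ : V → ℕ) : Prop :=
  (∀ v, φ v ∈ A.L v) ∧ ∀ e, ¬ A.C e (φ (G.fst e)) (φ (G.snd e))

end CorrAssign

/-! ### The construction

Vertices `(i,t)`, `i` modulo 3 and `t = 0,...,4`. For each `i` the five vertices `(i,t)` form `K_5`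
minus the edge between `(i,0)` and `(i,4)`, with straight edges oriented from smaller to larger
`t`. There are straight edges oriented from `(i,4)` to `(i+1,0)` and twisted edges, oriented both
ways, between `(i,4)` and `(i+1,4)`. All lists are `{0,1,2,3}`; twisted edges match `0` with `1`
and `2` with `3`. -/

/-- First ends: the edge `(i,k)` starts at `(i, src k)`. -/
def src : Fin 11 → Fin 5 := ![0, 0, 0, 1, 1, 1, 2, 2, 3, 4, 4]

/-- Second ends: the second coordinate. -/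
def tgt : Fin 11 → Fin 5 := ![1, 2, 3, 2, 3, 4, 3, 4, 4, 0, 4]

/-- The shift of the first coordinate between the two ends: only the edges `9` and `10` leave the
gadget. -/
def shf : Fin 11 → Fin 3 := ![0, 0, 0, 0, 0, 0, 0, 0, 0, 1, 1]

/-- The graph. -/
def gr : MGraph (Fin 3 × Fin 5) (Fin 3 × Fin 11) where
  fst e := (e.1, src e.2)
  snd e := (e.1 + shf e.2, tgt e.2)
  loopless := by decide

/-- The biorientation: the twisted edges are oriented both ways. -/
def bi : Biorientation gr where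
  fwd _ := True
  bwd e := e.2 = 10
  covers _ := Or.inl trivial

/-- The assignment: identity matchings on straight edges, the fixed-point-free matching
`0-1, 1-0, 2-3, 3-2` on twisted edges. -/
def asg : CorrAssign gr where
  L _ := Finset.range 4
  C e c d := c < 4 ∧ d < 4 ∧ ((e.2 ≠ 10 ∧ c = d) ∨ (e.2 = 10 ∧ c ≠ d ∧ c / 2 = d / 2))
  mem e c d h := by simp only [Finset.mem_range]; exact ⟨h.1, h.2.1⟩
  right_unique e c d d' h h' := by
    obtain ⟨_, _, ⟨h1, h2⟩ | ⟨h1, h2, h3⟩⟩ := h <;> obtain ⟨_, _, ⟨h4, h5⟩ | ⟨h4, h5, h6⟩⟩ := h'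
    · omega
    · exact absurd h4 h1
    · exact absurd h1 h4
    · omega
  left_unique e c c' d h h' := by
    obtain ⟨_, _, ⟨h1, h2⟩ | ⟨h1, h2, h3⟩⟩ := h <;> obtain ⟨_, _, ⟨h4, h5⟩ | ⟨h4, h5, h6⟩⟩ := h'
    · omega
    · exact absurd h4 h1
    · exact absurd h1 h4
    · omega

theorem gr_simple : gr.IsSimple := by
  unfold MGraph.IsSimple
  decide

/-- A list of all arcs. -/
def ArcSpec (u v : Fin 3 × Fin 5) : Prop :=
  (u.1 = v.1 ∧ u.2 < v.2 ∧ ¬ (u.2 = 0 ∧ v.2 = 4)) ∨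
  (u.2 = 4 ∧ v.2 = 0 ∧ v.1 = u.1 + 1) ∨ (u.2 = 4 ∧ v.2 = 4 ∧ u.1 ≠ v.1)

instance (u v : Fin 3 × Fin 5) : Decidable (ArcSpec u v) := by
  unfold ArcSpec; infer_instance

theorem spec_fwd : ∀ e : Fin 3 × Fin 11, ArcSpec (gr.fst e) (gr.snd e) := by decide

theorem spec_bwd : ∀ e : Fin 3 × Fin 11, e.2 = 10 → ArcSpec (gr.snd e) (gr.fst e) := by decide

theorem spec_44 : ∀ i : Fin 3, ¬ ArcSpec (i, 4) (i, 4) := by decide

theorem spec_40 : ∀ i : Fin 3, ¬ ArcSpec (i, 4) (i, 0) := by decide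

theorem spec_04 : ∀ i : Fin 3, ¬ ArcSpec (i, 0) (i, 4) := by decide

theorem spec_00 : ∀ i : Fin 3, ¬ ArcSpec (i, 0) (i, 0) := by decide

theorem arc_iff (u v : Fin 3 × Fin 5) : bi.Arc u v ↔ ArcSpec u v := by
  constructor
  · rintro ⟨e, ⟨_, h1, h2⟩ | ⟨h0, h1, h2⟩⟩
    · subst h1 h2
      exact spec_fwd e
    · subst h1 h2
      exact spec_bwd e h0
  · unfold Biorientation.Arc
    revert u v
    change ∀ u v : Fin 3 × Fin 5, ArcSpec u v →
      ∃ e : Fin 3 × Fin 11, (True ∧ gr.fst e = u ∧ gr.snd e = v) ∨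
        (e.2 = 10 ∧ gr.snd e = u ∧ gr.fst e = v)
    decide

/-- The last vertices of `S` among `(j,0),...,(j,3)`. -/
def Snk (S : Set (Fin 3 × Fin 5)) : Set (Fin 3 × Fin 5) :=
  {v | v ∈ S ∧ v.2 < 4 ∧ ∀ w ∈ S, w.1 = v.1 → w.2 < 4 → w.2 ≤ v.2}

theorem exists_snk (S : Set (Fin 3 × Fin 5)) (v : Fin 3 × Fin 5) (hv : v ∈ S) (h4 : v.2 < 4) :
    ∃ w ∈ Snk S, w.1 = v.1 ∧ v.2 ≤ w.2 := by
  classical
  let T : Finset (Fin 5) := Finset.univ.filter (fun t => t < 4 ∧ (v.1, t) ∈ S)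
  have hT : T.Nonempty := ⟨v.2, by simp [T, h4]; exact hv⟩
  have hm := Finset.max'_mem T hT
  simp only [T, Finset.mem_filter, Finset.mem_univ, true_and] at hm
  refine ⟨(v.1, T.max' hT), ⟨hm.2, hm.1, ?_⟩, rfl, ?_⟩
  · rintro ⟨j, t⟩ hw (hj : j = v.1) (ht : t < 4)
    subst hj
    exact Finset.le_max' T t (by simp [T, ht, hw])
  · exact Finset.le_max' T v.2 (by simp [T, h4]; exact hv)

theorem snk_unique (S : Set (Fin 3 × Fin 5)) (u v : Fin 3 × Fin 5) (hu : u ∈ Snk S)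
    (hv : v ∈ Snk S) (h : u.1 = v.1) : u = v :=
  Prod.ext h (le_antisymm (hv.2.2 u hu.1 h hu.2.1) (hu.2.2 v hv.1 h.symm hv.2.1))

theorem snk_indep (S : Set (Fin 3 × Fin 5)) (u v : Fin 3 × Fin 5) (hu : u ∈ Snk S)
    (hv : v ∈ Snk S) : ¬ ArcSpec u v := by
  have hu4 : u.2 ≠ 4 := hu.2.1.ne
  rintro (⟨h1, h2, _⟩ | ⟨h1, _⟩ | ⟨h1, _⟩)
  · have := snk_unique S u v hu hv h1
    subst this
    exact lt_irrefl _ h2
  · exact hu4 h1
  · exact hu4 h1

theorem snk_absorb (S : Set (Fin 3 × Fin 5)) (v : Fin 3 × Fin 5) (hv : v ∈ S) (h4 : v.2 < 4)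
    (hn : v ∉ Snk S) : ∃ w ∈ Snk S, w.1 = v.1 ∧ ArcSpec v w := by
  obtain ⟨w, hw, h1, h2⟩ := exists_snk S v hv h4
  have hne : v.2 ≠ w.2 := fun h => hn (by
    have : v = w := Prod.ext h1.symm h
    rw [this]; exact hw)
  exact ⟨w, hw, h1, Or.inl ⟨h1.symm, lt_of_le_of_ne h2 hne, fun h => hw.2.1.ne h.2⟩⟩

theorem bi_kernelPerfect : bi.KernelPerfect := by
  intro S
  unfold Biorientation.IsKernel
  simp only [arc_iff]
  by_cases hA : ∃ i : Fin 3, (i, (4 : Fin 5)) ∈ S ∧ (i + 1, (0 : Fin 5)) ∉ Snk S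
  · obtain ⟨i, hi, hn⟩ := hA
    refine ⟨{v | (v = (i, 4)) ∨ (v = (i, 0) ∧ v ∈ S) ∨ (v ∈ Snk S ∧ v.1 ≠ i)}, ?_, ?_, ?_⟩
    · rintro v (rfl | ⟨_, h⟩ | ⟨h, _⟩)
      · exact hi
      · exact h
      · exact h.1
    · rintro u (rfl | ⟨rfl, _⟩ | ⟨hu, hui⟩) v (rfl | ⟨rfl, _⟩ | ⟨hv, hvi⟩)
      · exact spec_44 i
      · exact spec_40 i
      · rintro (⟨h1, _⟩ | ⟨_, h1, h2⟩ | ⟨_, h1, _⟩)
        · exact hvi h1.symm
        · apply hn
          have : v = (i + 1, 0) := Prod.ext h2 h1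
          rw [← this]; exact hv
        · exact hv.2.1.ne h1
      · exact spec_04 i
      · exact spec_00 i
      · rintro (⟨h1, _⟩ | ⟨h1, _⟩ | ⟨h1, _⟩)
        · exact hvi h1.symm
        · exact absurd (show (0 : Fin 5) = 4 from h1) (by decide)
        · exact absurd (show (0 : Fin 5) = 4 from h1) (by decide)
      · rintro (⟨h1, _⟩ | ⟨h1, _⟩ | ⟨h1, _⟩)
        · exact hui h1
        · exact hu.2.1.ne h1
        · exact hu.2.1.ne h1
      · rintro (⟨h1, _⟩ | ⟨h1, _⟩ | ⟨h1, _⟩)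
        · exact hui h1
        · exact hu.2.1.ne h1
        · exact hu.2.1.ne h1
      · exact snk_indep S u v hu hv
    · rintro v hv hvn
      by_cases h4 : v.2 < 4
      · by_cases hvi : v.1 = i
        · refine ⟨(i, 4), Or.inl rfl, Or.inl ⟨hvi, h4, ?_⟩⟩
          rintro ⟨h0, _⟩
          exact hvn (Or.inr (Or.inl ⟨Prod.ext hvi h0, hv⟩))
        · by_cases hs : v ∈ Snk S
          · exact absurd (Or.inr (Or.inr ⟨hs, hvi⟩)) hvn
          · obtain ⟨w, hw, h1, h2⟩ := snk_absorb S v hv h4 hs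
            exact ⟨w, Or.inr (Or.inr ⟨hw, by rw [h1]; exact hvi⟩), h2⟩
      · have h4' : v.2 = 4 := by
          have := v.2.isLt
          apply Fin.ext
          simp only [Fin.lt_def, not_lt] at h4
          change 4 ≤ _ at h4
          change _ = 4
          omega
        refine ⟨(i, 4), Or.inl rfl, Or.inr (Or.inr ⟨h4', rfl, ?_⟩)⟩
        intro h
        exact hvn (Or.inl (Prod.ext h h4'))
  · push Not at hA
    refine ⟨Snk S, fun v h => h.1, fun u hu v hv => snk_indep S u v hu hv, ?_⟩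
    intro v hv hvn
    by_cases h4 : v.2 < 4
    · obtain ⟨w, hw, _, h2⟩ := snk_absorb S v hv h4 hvn
      exact ⟨w, hw, h2⟩
    · have h4' : v.2 = 4 := by
        have := v.2.isLt
        apply Fin.ext
        simp only [Fin.lt_def, not_lt] at h4
        change 4 ≤ _ at h4
        change _ = 4
        omega
      have hv' : (v.1, (4 : Fin 5)) ∈ S := by
        rw [← h4']; exact hv
      exact ⟨(v.1 + 1, 0), hA v.1 hv', Or.inr (Or.inl ⟨h4', rfl, rfl⟩)⟩

theorem deg_le : ∀ v : Fin 3 × Fin 5, Fintype.card {e : Fin 3 × Fin 11 // gr.fst e = v} +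
    Fintype.card {e : Fin 3 × Fin 11 // e.2 = 10 ∧ gr.snd e = v} + 1 ≤ 4 := by decide

theorem outDeg_le (v : Fin 3 × Fin 5) : bi.outDeg v + 1 ≤ 4 := by
  have h1 : Nat.card {e // bi.fwd e ∧ gr.fst e = v} =
      Fintype.card {e : Fin 3 × Fin 11 // gr.fst e = v} := by
    rw [← Nat.card_eq_fintype_card]
    exact Nat.card_congr (Equiv.subtypeEquivRight (fun e => by
      change True ∧ _ ↔ _
      simp))
  have h2 : Nat.card {e // bi.bwd e ∧ gr.snd e = v} =
      Fintype.card {e : Fin 3 × Fin 11 // e.2 = 10 ∧ gr.snd e = v} := by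
    rw [← Nat.card_eq_fintype_card]
    exact Nat.card_congr (Equiv.subtypeEquivRight (fun e => Iff.rfl))
  unfold Biorientation.outDeg
  rw [h1, h2]
  exact deg_le v

theorem not_colourable (φ : Fin 3 × Fin 5 → ℕ) : ¬ asg.IsColouring φ := by
  rintro ⟨hL, hC⟩
  have hlt : ∀ v, φ v < 4 := fun v => Finset.mem_range.1 (hL v)
  have hs : ∀ (i : Fin 3) (k : Fin 11), k ≠ 10 → φ (i, src k) ≠ φ (i + shf k, tgt k) := by
    intro i k hk h
    exact hC (i, k) ⟨hlt _, hlt _, Or.inl ⟨hk, h⟩⟩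
  have ht : ∀ i : Fin 3, ¬ (φ (i, 4) ≠ φ (i + 1, 4) ∧ φ (i, 4) / 2 = φ (i + 1, 4) / 2) := by
    intro i h
    exact hC (i, 10) ⟨hlt _, hlt _, Or.inr ⟨rfl, h⟩⟩
  have hcopy : ∀ i : Fin 3, φ (i, 4) = φ (i, 0) := by
    intro i
    have e0 : φ (i, 0) ≠ φ (i + 0, 1) := hs i 0 (by decide)
    have e1 : φ (i, 0) ≠ φ (i + 0, 2) := hs i 1 (by decide)
    have e2 : φ (i, 0) ≠ φ (i + 0, 3) := hs i 2 (by decide)
    have e3 : φ (i, 1) ≠ φ (i + 0, 2) := hs i 3 (by decide)
    have e4 : φ (i, 1) ≠ φ (i + 0, 3) := hs i 4 (by decide)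
    have e5 : φ (i, 1) ≠ φ (i + 0, 4) := hs i 5 (by decide)
    have e6 : φ (i, 2) ≠ φ (i + 0, 3) := hs i 6 (by decide)
    have e7 : φ (i, 2) ≠ φ (i + 0, 4) := hs i 7 (by decide)
    have e8 : φ (i, 3) ≠ φ (i + 0, 4) := hs i 8 (by decide)
    rw [add_zero] at e0 e1 e2 e3 e4 e5 e6 e7 e8
    have l0 := hlt (i, 0)
    have l1 := hlt (i, 1)
    have l2 := hlt (i, 2)
    have l3 := hlt (i, 3)
    have l4 := hlt (i, 4)
    omega
  have hlink : ∀ i : Fin 3, φ (i, 4) ≠ φ (i + 1, 4) := by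
    intro i
    have : φ (i, 4) ≠ φ (i + 1, 0) := hs i 9 (by decide)
    rw [hcopy (i + 1)]
    exact this
  have a0 : φ (0, 4) ≠ φ (1, 4) := hlink 0
  have a1 : φ (1, 4) ≠ φ (2, 4) := hlink 1
  have a2 : φ (2, 4) ≠ φ (0, 4) := hlink 2
  have b0 : ¬ (φ (0, 4) ≠ φ (1, 4) ∧ φ (0, 4) / 2 = φ (1, 4) / 2) := ht 0
  have b1 : ¬ (φ (1, 4) ≠ φ (2, 4) ∧ φ (1, 4) / 2 = φ (2, 4) / 2) := ht 1
  have b2 : ¬ (φ (2, 4) ≠ φ (0, 4) ∧ φ (2, 4) / 2 = φ (0, 4) / 2) := ht 2
  have l0 := hlt (0, 4)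
  have l1 := hlt (1, 4)
  have l2 := hlt (2, 4)
  omega

theorem twisted_imp (e : Fin 3 × Fin 11) (he : asg.Twisted e) : e.2 = 10 := by
  by_contra h
  apply he
  rintro c d ⟨_, _, ⟨_, h2⟩ | ⟨h1, _⟩⟩
  · exact h2
  · exact absurd h1 h

/-- The conjecture of Q1 fails already for simple graphs: there are a finite simple graph with a
kernel-perfect biorientation `D` and a derangement assignment, all of whose twisted edges are
oriented both ways in `D`, such that `|L(v)| ≥ d⁺(v) + 1` for every vertex `v`, but which has no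
colouring. -/
theorem result : ∃ (V E : Type) (_ : Finite V) (_ : Finite E) (G : MGraph V E)
    (D : Biorientation G) (A : CorrAssign G),
    G.IsSimple ∧ D.KernelPerfect ∧ A.IsDerangement ∧ (∀ e, A.Twisted e → D.fwd e ∧ D.bwd e) ∧
    (∀ v, D.outDeg v + 1 ≤ (A.L v).card) ∧ ¬ ∃ φ : V → ℕ, A.IsColouring φ := by
  refine ⟨Fin 3 × Fin 5, Fin 3 × Fin 11, inferInstance, inferInstance, gr, bi, asg, gr_simple,
    bi_kernelPerfect, ?_, ?_, ?_, ?_⟩
  · rintro e he c ⟨_, _, ⟨h1, _⟩ | ⟨_, h1, _⟩⟩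
    · exact h1 (twisted_imp e he)
    · exact h1 rfl
  · intro e he
    exact ⟨trivial, twisted_imp e he⟩
  · intro v
    have := outDeg_le v
    change _ ≤ (Finset.range 4).card
    rw [Finset.card_range]
    exact this
  · rintro ⟨φ, hφ⟩
    exact not_colourable φ hφ

end Pool.Agent.Results.MP_201e5f_co.SimpleGraphFails
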